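import Mathlib
import Pool.Agent.X198.GOG2

/-!
# MP_eb7acf_gt: a GO-group with an `ω^ω`-base and no suitable set

Let `κ = 𝔟` be the bounding number, let `e_ξ` (`ξ < κ`) be the unit vectors of `ℤ^κ` and, for every
ordinal `α < κ` of countable cofinality, let `x_α` be the characteristic function of a sequence of
type `ω` cofinal in `α`. The group `G` generated by the `e_ξ` and the `x_α`, with the subgroups
`{g : g|β = 0}` (`β < κ`) as a base at zero, is a lexicographically ordered abelian group with its
order topology; since `𝔟` is a monotone cofinal image of `ω^ω`, it has an `ω^ω`-base. A closed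
discrete subset of `G` has uniformly bounded supports; so if `S` were a suitable set then for some
`α` of countable cofinality the members of `⟨S⟩` would have, below `α`, support bounded below `α`
and could not approximate `x_α`.
-/

set_option autoImplicit false

namespace Pool.Agent.Results.MP_eb7acf_gt.NoSuitableSet

open Pool.Agent.X198.GOG

theorem result : ∃ (G : Type) (_ : AddCommGroup G) (_ : TopologicalSpace G),
    IsTopologicalAddGroup G ∧ T2Space G ∧ HasOmegaOmegaBase G ∧ IsGO G ∧ IsLO G ∧
      ¬ HasSuitableSet G :=
  main

end Pool.Agent.Results.MP_eb7acf_gt.NoSuitableSet
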